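import Pool.Agent.Lib_helper59.Lang.Defs

/-! Wronskians of meromorphic germs (blocks C and D of MP_45e720_ag). -/

open Complex Metric Function MeromorphicOn Filter Topology

namespace LangFC

/-- eventual statements in a punctured neighbourhood spread to neighbourhoods of the points -/
lemma ev_ev {P : ℂ → Prop} {a : ℂ} (h : ∀ᶠ z in 𝓝[≠] a, P z) :
    ∀ᶠ z in 𝓝[≠] a, ∀ᶠ w in 𝓝 z, P w := by
  have h1 := eventually_eventually_nhdsWithin.2 h
  filter_upwards [h1, self_mem_nhdsWithin] with z hz hza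
  rwa [isOpen_compl_singleton.nhdsWithin_eq hza] at hz

lemma wr_congr_at {p : ℕ} {F G : Fin p → ℂ → ℂ} {z : ℂ} (h : ∀ j, F j =ᶠ[𝓝 z] G j) :
    wr F z = wr G z := by
  unfold wr
  congr 1
  ext i j
  simp [(h j).iteratedDeriv_eq i]

lemma wr_congr {p : ℕ} {F G : Fin p → ℂ → ℂ} {a : ℂ} (h : ∀ j, F j =ᶠ[𝓝[≠] a] G j) :
    wr F =ᶠ[𝓝[≠] a] wr G := by
  have h1 : ∀ᶠ z in 𝓝[≠] a, ∀ j, ∀ᶠ w in 𝓝 z, F j w = G j w :=
    eventually_all.2 fun j => ev_ev (h j)
  filter_upwards [h1] with z hz
  exact wr_congr_at hz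

theorem wr_meromorphic {p : ℕ} (F : Fin p → ℂ → ℂ) (hF : ∀ j z, MeromorphicAt (F j) z) (a : ℂ) :
    MeromorphicAt (wr F) a := by
  have : wr F = fun z => ∑ σ : Equiv.Perm (Fin p), ((Equiv.Perm.sign σ : ℤ) : ℂ) *
      ∏ i, iteratedDeriv (σ i : ℕ) (F i) z := by
    ext z
    unfold wr
    rw [Matrix.det_apply']
    rfl
  rw [this]
  apply MeromorphicAt.fun_sum
  intro σ _
  apply MeromorphicAt.fun_mul (MeromorphicAt.const _ _)
  apply MeromorphicAt.fun_prod
  intro i _
  rw [iteratedDeriv_eq_iterate]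
  exact (hF i a).iterated_deriv

lemma wr_mero_at {p : ℕ} (F : Fin p → ℂ → ℂ) {a : ℂ} (hF : ∀ j, MeromorphicAt (F j) a) :
    MeromorphicAt (wr F) a := by
  have : wr F = fun z => ∑ σ : Equiv.Perm (Fin p), ((Equiv.Perm.sign σ : ℤ) : ℂ) *
      ∏ i, iteratedDeriv (σ i : ℕ) (F i) z := by
    ext z
    unfold wr
    rw [Matrix.det_apply']
    rfl
  rw [this]
  apply MeromorphicAt.fun_sum
  intro σ _
  apply MeromorphicAt.fun_mul (MeromorphicAt.const _ _)
  apply MeromorphicAt.fun_prod
  intro i _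
  rw [iteratedDeriv_eq_iterate]
  exact (hF i).iterated_deriv

/-- scaling all functions by one function -/
lemma wr_mul_at {p : ℕ} (φ : ℂ → ℂ) (F : Fin p → ℂ → ℂ) {z : ℂ} (hφ : AnalyticAt ℂ φ z)
    (hF : ∀ j, AnalyticAt ℂ (F j) z) :
    wr (fun j => F j * φ) z = φ z ^ p * wr F z := by
  unfold wr
  have key : (Matrix.of fun i j : Fin p => iteratedDeriv (i : ℕ) (F j * φ) z) =
      (Matrix.of fun i k : Fin p => if k ≤ i then
        ((i : ℕ).choose (k : ℕ) : ℂ) * iteratedDeriv ((i : ℕ) - (k : ℕ)) φ z else 0) *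
      (Matrix.of fun i j : Fin p => iteratedDeriv (i : ℕ) (F j) z) := by
    ext i j
    rw [Matrix.mul_apply]
    simp only [Matrix.of_apply]
    rw [iteratedDeriv_mul ((hF j).contDiffAt) (hφ.contDiffAt)]
    have h1 : ∀ k : Fin p, (if k ≤ i then
        ((i : ℕ).choose (k : ℕ) : ℂ) * iteratedDeriv ((i : ℕ) - (k : ℕ)) φ z else 0) *
          iteratedDeriv (k : ℕ) (F j) z = (fun l : ℕ => if l ≤ (i : ℕ) then
        ((i : ℕ).choose l : ℂ) * iteratedDeriv l (F j) z * iteratedDeriv ((i : ℕ) - l) φ z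
          else 0) (k : ℕ) := by
      intro k
      simp only [Fin.le_iff_val_le_val]
      split_ifs <;> ring
    rw [Finset.sum_congr rfl fun k _ => h1 k, Fin.sum_univ_eq_sum_range (fun l : ℕ =>
      if l ≤ (i : ℕ) then ((i : ℕ).choose l : ℂ) * iteratedDeriv l (F j) z *
        iteratedDeriv ((i : ℕ) - l) φ z else 0) p, ← Finset.sum_filter]
    apply Finset.sum_congr _ fun _ _ => rfl
    ext l
    simp only [Finset.mem_range, Finset.mem_filter]
    have := i.2
    omega
  rw [key, Matrix.det_mul, Matrix.det_of_isLowerTriangular]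
  · simp
  · intro i k hik
    have : ¬ (k ≤ i) := by simpa using hik
    simp [this]

/-- first function equal to one -/
lemma wr_one_at {p : ℕ} (F : Fin (p + 1) → ℂ → ℂ) {z : ℂ} (h0 : F 0 = fun _ => 1) :
    wr F z = wr (fun j : Fin p => deriv (F j.succ)) z := by
  unfold wr
  rw [Matrix.det_succ_column_zero, Finset.sum_eq_single 0]
  · simp only [Fin.val_zero, pow_zero, Matrix.of_apply, h0, iteratedDeriv_zero, one_mul]
    congr 1
    ext i j
    simp [iteratedDeriv_succ']
  · intro i _ hi
    have : iteratedDeriv (i : ℕ) (fun _ : ℂ => (1 : ℂ)) z = 0 := by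
      rw [iteratedDeriv_const]
      have : (i : ℕ) ≠ 0 := fun h => hi (Fin.ext h)
      simp [this]
    simp [h0, this]
  · simp

/-- a meromorphic germ with vanishing derivative is constant -/
lemma const_of_deriv {g : ℂ → ℂ} {a : ℂ} (hg : MeromorphicAt g a)
    (hd : ∀ᶠ z in 𝓝[≠] a, deriv g z = 0) : ∃ c : ℂ, ∀ᶠ z in 𝓝[≠] a, g z = c := by
  have key : ∀ {g : ℂ → ℂ}, MeromorphicAt g a → (∀ᶠ z in 𝓝[≠] a, deriv g z = 0) →
      meromorphicOrderAt g a ≠ 0 → ∀ᶠ z in 𝓝[≠] a, g z = 0 := by
    intro g hg hd h0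
    by_contra hne
    have h1 : meromorphicOrderAt g a ≠ ⊤ := fun h => hne (meromorphicOrderAt_eq_top_iff.1 h)
    obtain ⟨n, hn⟩ := WithTop.ne_top_iff_exists.1 h1
    have hn0 : (n : ℂ) ≠ 0 := by
      intro h
      apply h0
      rw [← hn]
      have : n = 0 := by exact_mod_cast h
      simp [this]
    have h2 := meromorphicOrderAt_deriv_eq_sub_one hn0 hn.symm
    rw [meromorphicOrderAt_eq_top_iff.2 hd] at h2
    exact WithTop.top_ne_coe h2
  by_cases h0 : meromorphicOrderAt g a = 0
  · obtain ⟨c, hc, hlim⟩ := tendsto_ne_zero_of_meromorphicOrderAt_eq_zero hg h0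
    refine ⟨c, ?_⟩
    have hm : MeromorphicAt (fun z => g z - c) a := hg.fun_sub (MeromorphicAt.const _ _)
    have h1 : ∀ᶠ z in 𝓝[≠] a, (fun z => g z - c) z = 0 := by
      apply key hm
      · filter_upwards [hd] with z hz
        simpa using hz
      · have : Tendsto (fun z => g z - c) (𝓝[≠] a) (𝓝 0) := by
          simpa using hlim.sub_const c
        exact ((tendsto_zero_iff_meromorphicOrderAt_pos hm).1 this).ne'
    filter_upwards [h1] with z hz
    exact sub_eq_zero.1 hz
  · exact ⟨0, key hg hd h0⟩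

lemma wr_order_ne_top_at {p : ℕ} : ∀ (F : Fin p → ℂ → ℂ) {a : ℂ} (_ : ∀ j, MeromorphicAt (F j) a)
    (_ : ∀ c : Fin p → ℂ, (∀ᶠ z in 𝓝[≠] a, ∑ j, c j * F j z = 0) → c = 0),
    meromorphicOrderAt (wr F) a ≠ ⊤ := by
  induction p with
  | zero =>
    intro F a _ _ h
    rw [meromorphicOrderAt_eq_top_iff] at h
    obtain ⟨z, hz⟩ := h.exists
    simp [wr] at hz
  | succ p ih =>
    intro F a hF hind
    have hne : ∀ᶠ z in 𝓝[≠] a, F 0 z ≠ 0 := by
      rcases (hF 0).eventually_eq_zero_or_eventually_ne_zero with h | h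
      · exfalso
        have := hind (Pi.single 0 1) (by
          filter_upwards [h] with z hz
          rw [Finset.sum_eq_single 0] <;> simp +contextual [hz])
        have := congrFun this 0
        simp at this
      · exact h
    set H : Fin p → ℂ → ℂ := fun j => deriv (fun z => F j.succ z / F 0 z) with hH
    have hq : ∀ j, MeromorphicAt (fun z => F j z / F 0 z) a := fun j => (hF j).fun_div (hF 0)
    have hHm : ∀ j, MeromorphicAt (H j) a := fun j => (hq j.succ).deriv
    have hH' : meromorphicOrderAt (wr H) a ≠ ⊤ := by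
      apply ih H hHm
      intro c hc
      have han : ∀ᶠ z in 𝓝[≠] a, ∀ j, AnalyticAt ℂ (fun z => F j z / F 0 z) z :=
        eventually_all.2 fun j => (hq j).eventually_analyticAt
      obtain ⟨c0, hc0⟩ := const_of_deriv (g := fun z => ∑ j : Fin p, c j * (F j.succ z / F 0 z))
        (a := a) (by
          apply MeromorphicAt.fun_sum
          intro j _
          exact (MeromorphicAt.const _ _).fun_mul (hq j.succ)) (by
          filter_upwards [hc, han] with z hz hz2
          rw [← hz, deriv_fun_sum]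
          · apply Finset.sum_congr rfl
            intro j _
            rw [deriv_const_mul _ (hz2 j.succ).differentiableAt]
          · intro j _
            exact ((hz2 j.succ).differentiableAt).const_mul _)
      have h1 := hind (Fin.cons (-c0) c) (by
        filter_upwards [hc0, hne] with z hz hz2
        rw [Fin.sum_univ_succ]
        simp only [Fin.cons_zero, Fin.cons_succ]
        have : ∑ j : Fin p, c j * F j.succ z = (∑ j : Fin p, c j * (F j.succ z / F 0 z)) * F 0 z := by
          rw [Finset.sum_mul]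
          apply Finset.sum_congr rfl
          intro j _
          field_simp
        rw [this, hz]
        ring)
      ext j
      have := congrFun h1 j.succ
      simpa using this
    have hprod : wr F =ᶠ[𝓝[≠] a] fun z => F 0 z ^ (p + 1) * wr H z := by
      have han : ∀ᶠ z in 𝓝[≠] a, ∀ j, AnalyticAt ℂ (F j) z :=
        eventually_all.2 fun j => (hF j).eventually_analyticAt
      filter_upwards [han, hne, ev_ev hne] with z hz hz0 hz1
      set Q : Fin (p + 1) → ℂ → ℂ := fun j => if j = 0 then (fun _ => 1) else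
        (fun z => F j z / F 0 z) with hQ
      have hQan : ∀ j, AnalyticAt ℂ (Q j) z := by
        intro j
        by_cases hj : j = 0
        · simp only [hQ, hj, if_true]
          exact analyticAt_const
        · simp only [hQ, hj, if_false]
          exact (hz j).fun_div (hz 0) hz0
      have e1 : wr F z = wr (fun j => Q j * F 0) z := by
        apply wr_congr_at
        intro j
        filter_upwards [hz1] with w hw
        by_cases hj : j = 0
        · subst hj
          simp [hQ]
        · simp only [hQ, hj, if_false, Pi.mul_apply]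
          field_simp
      rw [e1, wr_mul_at _ _ (hz 0) hQan, wr_one_at Q (by simp [hQ])]
      congr 1
    rw [meromorphicOrderAt_congr hprod]
    have hp1 : MeromorphicAt (fun z => F 0 z ^ (p + 1)) a := (hF 0).fun_pow _
    have := meromorphicOrderAt_mul hp1 (wr_mero_at H hHm)
    have e2 : (fun z => F 0 z ^ (p + 1) * wr H z) = (fun z => F 0 z ^ (p + 1)) * wr H := rfl
    rw [e2, this]
    have h0 : meromorphicOrderAt (fun z => F 0 z ^ (p + 1)) a ≠ ⊤ := by
      rw [meromorphicOrderAt_ne_top_iff_eventually_ne_zero hp1]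
      filter_upwards [hne] with z hz
      exact pow_ne_zero _ hz
    exact WithTop.add_ne_top.2 ⟨h0, hH'⟩

theorem wr_order_ne_top {p : ℕ} (F : Fin p → ℂ → ℂ) (hF : ∀ j z, MeromorphicAt (F j) z) (a : ℂ)
    (hind : ∀ c : Fin p → ℂ, (∀ᶠ z in nhdsWithin a {a}ᶜ, ∑ j, c j * F j z = 0) → c = 0) :
    meromorphicOrderAt (wr F) a ≠ ⊤ :=
  wr_order_ne_top_at F (fun j => hF j a) hind

end LangFC
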