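import Pool.Agent.Lib_helper83.Lang.D

/-! Cartan's inequality for sums of `m`-th powers (block E of MP_45e720_ag). -/

open Complex Metric Function MeromorphicOn Filter Topology ValueDistribution

namespace LangFC

lemma Nice.dv_eq {f : ℂ → ℂ} (hf : Nice f) (z : ℂ) :
    meromorphicOrderAt f z = ((dv f z : ℤ) : WithTop ℤ) := by
  rw [divisor_apply (fun z _ => hf.meromorphic z) (Set.mem_univ z), WithTop.coe_untop₀_of_ne_top
    (hf.ord z)]

lemma Nice.dv_eq_zero_iff {f : ℂ → ℂ} (hf : Nice f) (z : ℂ) : dv f z = 0 ↔ f z ≠ 0 := by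
  rw [← (hf.nf z).meromorphicOrderAt_eq_zero_iff, hf.dv_eq]
  norm_cast

lemma Nice.analyticAt_e {f : ℂ → ℂ} (hf : Nice f) {z : ℂ} (hz : dv f z = 0) : AnalyticAt ℂ f z := by
  rw [← (hf.nf z).meromorphicOrderAt_nonneg_iff_analyticAt, hf.dv_eq, hz]
  norm_cast

lemma Nice.ev_ne {f : ℂ → ℂ} (hf : Nice f) (a : ℂ) : ∀ᶠ z in 𝓝[≠] a, f z ≠ 0 :=
  (meromorphicOrderAt_ne_top_iff_eventually_ne_zero (hf.meromorphic a)).1 (hf.ord a)

/-- comparison of circle averages off the zeros -/
lemma avg_log_le {W : ℂ → ℂ} (hW : Meromorphic W) (hWt : ∀ a, meromorphicOrderAt W a ≠ ⊤)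
    {r : ℝ} (hr : 0 < r) {g : ℂ → ℝ} (hg : CircleIntegrable g 0 r)
    (h : ∀ z, ‖z‖ = r → W z ≠ 0 → Real.log ‖W z‖ ≤ g z) :
    Real.circleAverage (fun z => Real.log ‖W z‖) 0 r ≤ Real.circleAverage g 0 r := by
  classical
  set f₂ : ℂ → ℝ := fun z => if W z = 0 then g z else Real.log ‖W z‖ with hf₂
  have hcod : (fun z => Real.log ‖W z‖) =ᶠ[codiscreteWithin (sphere (0 : ℂ) |r|)] f₂ := by
    rw [EventuallyEq, Filter.Eventually, mem_codiscreteWithin_iff_forall_mem_nhdsNE]
    intro x _
    refine mem_of_superset ?_ Set.subset_union_left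
    have := (meromorphicOrderAt_ne_top_iff_eventually_ne_zero (hW x)).1 (hWt x)
    filter_upwards [this] with z hz
    simp [hf₂, hz]
  have hint : CircleIntegrable (fun z => Real.log ‖W z‖) 0 r :=
    MeromorphicOn.circleIntegrable_log_norm (fun z _ => hW z)
  rw [Real.circleAverage_congr_codiscreteWithin hcod hr.ne']
  apply Real.circleAverage_mono (CircleIntegrable.congr_codiscreteWithin hcod hint) hg
  intro z hz
  have hz' : ‖z‖ = r := by
    rw [mem_sphere_zero_iff_norm, abs_of_pos hr] at hz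
    exact hz
  by_cases h0 : W z = 0
  · simp [hf₂, h0]
  · simpa [hf₂, h0] using h z hz' h0

/-- bound of the Wronskian by its quotients -/
lemma norm_wr_le {p : ℕ} (F : Fin p → ℂ → ℂ) {z : ℂ} {B : ℝ} (h0 : ∀ j, F j z ≠ 0)
    (hB : ∀ j, ∀ l < p, ‖iteratedDeriv l (F j) z / F j z‖ ≤ B) :
    ‖wr F z‖ ≤ (p.factorial : ℝ) * B ^ p * ∏ j, ‖F j z‖ := by
  unfold wr
  have e : (Matrix.of fun i j : Fin p => iteratedDeriv (i : ℕ) (F j) z) =
      Matrix.of fun i j : Fin p => F j z *
        (Matrix.of fun i j : Fin p => iteratedDeriv (i : ℕ) (F j) z / F j z) i j := by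
    ext i j
    simp only [Matrix.of_apply]
    field_simp [h0 j]
  rw [e, Matrix.det_mul_row, norm_mul, norm_prod, mul_comm]
  have := Matrix.det_le (A := Matrix.of fun i j : Fin p => iteratedDeriv (i : ℕ) (F j) z / F j z)
    (abv := NormedField.toAbsoluteValue ℂ) (x := B) (fun i j => hB j i i.2)
  simp only [Fintype.card_fin, nsmul_eq_mul] at this
  gcongr
  exact this

/-- the pole divisor of a projective curve -/
lemma exists_sup_divisor {q : ℕ} (D : Fin (q + 1) → locallyFinsuppWithin (Set.univ : Set ℂ) ℤ) :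
    ∃ ν : locallyFinsuppWithin (Set.univ : Set ℂ) ℤ, (∀ j, -D j ≤ ν) ∧ ∀ z, ∃ i, ν z = -D i z := by
  have hne : (Finset.univ : Finset (Fin (q + 1))).Nonempty := ⟨0, Finset.mem_univ _⟩
  refine ⟨Finset.univ.sup' hne fun j => -D j, fun j => ?_, ?_⟩
  · exact Finset.le_sup' (fun j => -D j) (Finset.mem_univ j)
  · apply Finset.sup'_induction hne (fun j => -D j)
      (p := fun E : locallyFinsuppWithin (Set.univ : Set ℂ) ℤ => ∀ z, ∃ i, E z = -D i z)
    · intro E₁ h₁ E₂ h₂ z
      obtain ⟨i₁, hi₁⟩ := h₁ z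
      obtain ⟨i₂, hi₂⟩ := h₂ z
      have : (E₁ ⊔ E₂) z = max (E₁ z) (E₂ z) := rfl
      rw [this]
      rcases max_choice (E₁ z) (E₂ z) with h | h <;> rw [h]
      · exact ⟨i₁, hi₁⟩
      · exact ⟨i₂, hi₂⟩
    · intro j _ z
      exact ⟨j, rfl⟩

theorem cartan {p m : ℕ} (hp : 1 ≤ p) (hm : (p + 1) * (p - 1) < m) (G : Fin (p + 1) → ℂ → ℂ)
    (hG : ∀ j, Nice (G j)) (hlast : G (Fin.last p) = fun _ => 1)
    (hsum : ∀ z, (∀ j, dv (G j) z = 0) → ∑ j, G j z ^ m = 0)
    (hW : ∀ a, meromorphicOrderAt (wr fun (j : Fin p) z => G j.castSucc z ^ m) a ≠ ⊤) :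
    ∃ C : ℝ, ∀ r B : ℝ, 1 ≤ r → 1 ≤ B → (∀ j w, ‖w‖ = r → dv (G j) w = 0) →
      (∀ j, ∀ l < p, ∀ z : ℂ, ‖z‖ = r →
        ‖iteratedDeriv l (fun z => G j z ^ m) z / G j z ^ m‖ ≤ B) →
      ∀ j, characteristic (G j) ⊤ r ≤ p * Real.log B + C := by
  set W : ℂ → ℂ := wr fun (j : Fin p) z => G j.castSucc z ^ m with hWdef
  have hGm : ∀ j, ∀ z, MeromorphicAt (fun z => G j z ^ m) z :=
    fun j z => ((hG j).meromorphic z).fun_pow m
  have hWm : Meromorphic W := fun a => wr_mero_at _ fun j => hGm _ a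
  obtain ⟨ν, hν, hν'⟩ := exists_sup_divisor fun j => dv (G j)
  -- the divisor inequality
  have hdiv : ((m : ℤ) - p + 1) • ∑ j, dv (G j) + ((m : ℤ) - (p + 1) * (p - 1)) • ν ≤ dv W := by
    intro a
    obtain ⟨i, hi⟩ := hν' a
    have hmin : ∀ j, dv (G i) a ≤ dv (G j) a := by
      intro j
      have h1 : (-dv (G j)) a ≤ ν a := hν j a
      rw [hi] at h1
      have h2 : (-dv (G j)) a = -(dv (G j) a) := rfl
      rw [h2] at h1
      linarith
    have hsum' : ∀ᶠ z in 𝓝[≠] a, ∑ j, G j z ^ m = 0 := by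
      have h1 : ∀ᶠ z in 𝓝[≠] a, ∀ j, G j z ≠ 0 := eventually_all.2 fun j => (hG j).ev_ne a
      filter_upwards [h1] with z hz
      exact hsum z fun j => ((hG j).dv_eq_zero_iff z).2 (hz j)
    have h1 := wr_order_ge hm G (fun j z => (hG j).meromorphic z) a (fun j => dv (G j) a)
      (fun j => (hG j).dv_eq a) hsum' i hmin
    have h2 : meromorphicOrderAt W a = ((dv W a : ℤ) : WithTop ℤ) := by
      rw [divisor_apply (fun z _ => hWm z) (Set.mem_univ a), WithTop.coe_untop₀_of_ne_top (hW a)]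
    rw [← hWdef, h2] at h1
    have h3 := WithTop.coe_le_coe.1 h1
    have h4 : (((m : ℤ) - p + 1) • ∑ j, dv (G j) + ((m : ℤ) - (p + 1) * (p - 1)) • ν) a =
        ((m : ℤ) - p + 1) * ∑ j, dv (G j) a + ((m : ℤ) - (p + 1) * (p - 1)) * ν a := by
      simp
    change (((m : ℤ) - p + 1) • ∑ j, dv (G j) + ((m : ℤ) - (p + 1) * (p - 1)) • ν) a ≤ dv W a
    rw [h4, hi]
    linarith
  set c : Fin (p + 1) → ℝ := fun j => Real.log ‖meromorphicTrailingCoeffAt (G j) 0‖ with hc
  set cW : ℝ := Real.log ‖meromorphicTrailingCoeffAt W 0‖ with hcW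
  refine ⟨Real.log p.factorial + ((m : ℝ) - p + 1) * ∑ j, c j - cW, ?_⟩
  intro r B hr hB hdvr hBd j₀
  have hr0 : 0 < r := by linarith
  have hB0 : 0 < B := by linarith
  have hne : (Finset.univ : Finset (Fin (p + 1))).Nonempty := ⟨0, Finset.mem_univ _⟩
  set M : ℂ → ℝ := fun z => Finset.univ.sup' hne fun j => Real.log ‖G j z‖ with hM
  have hGne : ∀ j z, ‖z‖ = r → G j z ≠ 0 := fun j z hz => ((hG j).dv_eq_zero_iff z).1 (hdvr j z hz)
  have hGan : ∀ j z, ‖z‖ = r → AnalyticAt ℂ (G j) z := fun j z hz => (hG j).analyticAt_e (hdvr j z hz)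
  have hlogc : ∀ j, ContinuousOn (fun z => Real.log ‖G j z‖) (sphere (0 : ℂ) r) := by
    intro j
    apply ContinuousOn.log
    · intro z hz
      exact (hGan j z (by simpa using hz)).continuousAt.norm.continuousWithinAt
    · intro z hz
      exact norm_ne_zero_iff.2 (hGne j z (by simpa using hz))
  have hMc : ContinuousOn M (sphere (0 : ℂ) r) :=
    ContinuousOn.finset_sup'_apply hne fun j _ => hlogc j
  have hMi : CircleIntegrable M 0 r := hMc.circleIntegrable hr0.le
  have hli : ∀ j, CircleIntegrable (fun z => Real.log ‖G j z‖) 0 r :=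
    fun j => (hlogc j).circleIntegrable hr0.le
  have hleM : ∀ j z, Real.log ‖G j z‖ ≤ M z := fun j z =>
    Finset.le_sup' (fun j => Real.log ‖G j z‖) (Finset.mem_univ j)
  have hM0 : ∀ z, 0 ≤ M z := by
    intro z
    have := hleM (Fin.last p) z
    rw [hlast] at this
    simpa using this
  -- the pointwise inequality
  have hpt : ∀ z, ‖z‖ = r → W z ≠ 0 → Real.log ‖W z‖ ≤
      (Real.log p.factorial + p * Real.log B) + ((m : ℝ) * (∑ j, Real.log ‖G j z‖) - m * M z) := by
    intro z hz hWz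
    obtain ⟨i, -, hi⟩ := Finset.exists_mem_eq_sup' hne fun j => Real.log ‖G j z‖
    have hMz : M z = Real.log ‖G i z‖ := hi
    have han : ∀ j, AnalyticAt ℂ (fun z => G j z ^ m) z := fun j => (hGan j z hz).fun_pow m
    have hsz : ∀ᶠ w in 𝓝 z, ∑ j, G j w ^ m = 0 := by
      have h1 : ∀ᶠ w in 𝓝 z, ∀ j, G j w ≠ 0 := eventually_all.2 fun j =>
        (hGan j z hz).continuousAt.eventually_ne (hGne j z hz)
      filter_upwards [h1] with w hw
      exact hsum w fun j => ((hG j).dv_eq_zero_iff w).2 (hw j)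
    have h1 : ‖W z‖ = ‖wr (fun (j : Fin p) z => G (i.succAbove j) z ^ m) z‖ := by
      have := norm_wr_swap (fun j z => G j z ^ m) han hsz (Fin.last p) i
      simpa only [Fin.succAbove_last] using this
    have h2 := norm_wr_le (fun (j : Fin p) z => G (i.succAbove j) z ^ m) (z := z) (B := B)
      (fun j => pow_ne_zero _ (hGne _ z hz)) (fun j l hl => hBd _ l hl z hz)
    rw [← h1] at h2
    have h3 : ∀ j : Fin p, ‖G (i.succAbove j) z ^ m‖ ≠ 0 := fun j =>
      norm_ne_zero_iff.2 (pow_ne_zero _ (hGne _ z hz))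
    have h4 : Real.log ((p.factorial : ℝ) * B ^ p * ∏ j : Fin p, ‖G (i.succAbove j) z ^ m‖) =
        Real.log p.factorial + p * Real.log B + m * ∑ j : Fin p, Real.log ‖G (i.succAbove j) z‖ := by
      rw [Real.log_mul (by positivity) (Finset.prod_ne_zero_iff.2 fun j _ => h3 j),
        Real.log_mul (by positivity) (by positivity), Real.log_pow,
        Real.log_prod (fun j _ => h3 j), Finset.mul_sum]
      congr 1
      apply Finset.sum_congr rfl
      intro j _
      rw [norm_pow, Real.log_pow]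
    have h5 : Real.log ‖W z‖ ≤ _ := Real.log_le_log (norm_pos_iff.2 hWz) h2
    rw [h4] at h5
    have h6 : ∑ j, Real.log ‖G j z‖ =
        Real.log ‖G i z‖ + ∑ j : Fin p, Real.log ‖G (i.succAbove j) z‖ :=
      Fin.sum_univ_succAbove (fun j => Real.log ‖G j z‖) i
    rw [h6, hMz]
    linarith
  -- circle averages
  have hsi : CircleIntegrable (fun z => ∑ j, Real.log ‖G j z‖) 0 r := by
    have := CircleIntegrable.sum (c := 0) (R := r) Finset.univ
      (f := fun (j : Fin (p + 1)) z => Real.log ‖G j z‖) (fun j _ => hli j)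
    convert this using 1
    ext z
    simp
  have hconst : CircleIntegrable (fun _ : ℂ => Real.log p.factorial + p * Real.log B) 0 r :=
    circleIntegrable_const _ _ _
  have hmsi : CircleIntegrable (fun z => (m : ℝ) * ∑ j, Real.log ‖G j z‖) 0 r := hsi.const_mul _
  have hmMi : CircleIntegrable (fun z => (m : ℝ) * M z) 0 r := hMi.const_mul _
  have havg := avg_log_le hWm hW hr0 (hconst.add (hmsi.sub hmMi)) hpt
  have havg2 : Real.circleAverage ((fun _ : ℂ => Real.log p.factorial + p * Real.log B) +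
      ((fun z => (m : ℝ) * ∑ j, Real.log ‖G j z‖) - fun z => (m : ℝ) * M z)) 0 r =
      (Real.log p.factorial + p * Real.log B) +
        (m * ∑ j, Real.circleAverage (fun z => Real.log ‖G j z‖) 0 r -
          m * Real.circleAverage M 0 r) := by
    rw [Real.circleAverage_add hconst (hmsi.sub hmMi), Real.circleAverage_sub hmsi hmMi,
      Real.circleAverage_const]
    congr 2
    · rw [← Real.circleAverage_fun_sum fun j _ => hli j]
      have := Real.circleAverage_fun_smul (a := (m : ℝ)) (c := (0 : ℂ)) (R := r)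
        (f := fun z => ∑ j, Real.log ‖G j z‖)
      simpa using this
    · have := Real.circleAverage_fun_smul (a := (m : ℝ)) (c := (0 : ℂ)) (R := r) (f := M)
      simpa using this
  rw [havg2] at havg
  -- Jensen
  have hJ : ∀ j, Real.circleAverage (fun z => Real.log ‖G j z‖) 0 r =
      locallyFinsuppWithin.logCounting (dv (G j)) r + c j := by
    intro j
    have := locallyFinsuppWithin.logCounting_divisor_eq_circleAverage_sub_const
      (hG j).meromorphic hr0.ne'
    rw [hc]
    simp only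
    rw [this]
    ring
  have hJW : Real.circleAverage (fun z => Real.log ‖W z‖) 0 r =
      locallyFinsuppWithin.logCounting (dv W) r + cW := by
    have := locallyFinsuppWithin.logCounting_divisor_eq_circleAverage_sub_const hWm hr0.ne'
    rw [hcW, this]
    ring
  have hN : ((m : ℝ) - p + 1) * ∑ j, locallyFinsuppWithin.logCounting (dv (G j)) r +
      ((m : ℝ) - (p + 1) * (p - 1)) * locallyFinsuppWithin.logCounting ν r ≤
      locallyFinsuppWithin.logCounting (dv W) r := by
    have := locallyFinsuppWithin.logCounting_le hdiv hr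
    rw [map_add, map_zsmul, map_zsmul, map_sum] at this
    simpa using this
  have hA : ∀ j, locallyFinsuppWithin.logCounting (dv (G j)) r + c j ≤
      Real.circleAverage M 0 r := by
    intro j
    rw [← hJ j]
    exact Real.circleAverage_mono (hli j) hMi fun z _ => hleM j z
  have hAM0 : 0 ≤ Real.circleAverage M 0 r := Real.circleAverage_nonneg_of_nonneg fun z _ => hM0 z
  have hν0 : 0 ≤ locallyFinsuppWithin.logCounting ν r := by
    apply locallyFinsuppWithin.logCounting_nonneg _ hr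
    refine le_trans ?_ (hν (Fin.last p))
    intro z
    change (0 : ℤ) ≤ -(dv (G (Fin.last p)) z)
    have : dv (G (Fin.last p)) z = 0 := by
      rw [(hG _).dv_eq_zero_iff, hlast]
      exact one_ne_zero
    rw [this]
    simp
  -- the characteristic
  have hchar : characteristic (G j₀) ⊤ r ≤
      Real.circleAverage M 0 r + locallyFinsuppWithin.logCounting ν r := by
    unfold characteristic
    rw [Pi.add_apply, proximity_top, logCounting_top]
    apply add_le_add
    · apply Real.circleAverage_mono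
        (MeromorphicOn.circleIntegrable_posLog_norm fun z _ => (hG j₀).meromorphic z) hMi
      intro z _
      rw [Real.posLog]
      exact max_le (hM0 z) (hleM j₀ z)
    · apply locallyFinsuppWithin.logCounting_le _ hr
      intro z
      have h1 : (-dv (G j₀)) z ≤ ν z := hν j₀ z
      have h2 : (0 : ℤ) ≤ ν z := by
        have h3 : (-dv (G (Fin.last p))) z ≤ ν z := hν (Fin.last p) z
        have : dv (G (Fin.last p)) z = 0 := by
          rw [(hG _).dv_eq_zero_iff, hlast]
          exact one_ne_zero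
        have h4 : (-dv (G (Fin.last p))) z = -(dv (G (Fin.last p)) z) := rfl
        rw [h4, this] at h3
        simpa using h3
      change max (-(dv (G j₀)) z) 0 ≤ ν z
      exact max_le h1 h2
  refine hchar.trans ?_
  -- final arithmetic
  set N := locallyFinsuppWithin.logCounting ν r with hNdef
  set A := Real.circleAverage M 0 r with hAdef
  rw [hJW, Finset.sum_congr rfl fun j _ => hJ j, Finset.sum_add_distrib] at havg
  have hsumA : ∑ j, locallyFinsuppWithin.logCounting (dv (G j)) r + ∑ j, c j ≤ (p + 1) * A := by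
    rw [← Finset.sum_add_distrib]
    calc ∑ j, (locallyFinsuppWithin.logCounting (dv (G j)) r + c j) ≤ ∑ _j : Fin (p + 1), A :=
          Finset.sum_le_sum fun j _ => hA j
      _ = (p + 1) * A := by simp
  set S := ∑ j, locallyFinsuppWithin.logCounting (dv (G j)) r with hS
  set sc := ∑ j, c j with hsc
  have hp1 : (1 : ℝ) ≤ p := by exact_mod_cast hp
  have hK : (1 : ℝ) ≤ (m : ℝ) - (p + 1) * (p - 1) := by
    have h1 : (p + 1) * (p - 1) + 1 ≤ m := hm
    have h2 : (((p + 1) * (p - 1) + 1 : ℕ) : ℝ) ≤ (m : ℝ) := by exact_mod_cast h1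
    push_cast [Nat.cast_sub hp] at h2
    linarith
  have h1 : (p - 1) * (S + sc) ≤ (p - 1) * ((p + 1) * A) :=
    mul_le_mul_of_nonneg_left hsumA (by linarith)
  have h2 : ((m : ℝ) - (p + 1) * (p - 1)) * (A + N) ≤
      p * Real.log B + (Real.log p.factorial + ((m : ℝ) - p + 1) * sc - cW) := by
    nlinarith
  have h3 : A + N ≤ ((m : ℝ) - (p + 1) * (p - 1)) * (A + N) := by
    nlinarith
  linarith

end LangFC
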