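import Pool.Agent.Lib_helper83.Lang.C

/-! The order of the Wronskian of `m`-th powers with vanishing sum (block D of MP_45e720_ag). -/

open Complex Metric Function MeromorphicOn Filter Topology

namespace LangFC

/-- the order of a finite sum -/
lemma le_ord_sum {ι : Type*} (s : Finset ι) (f : ι → ℂ → ℂ) {a : ℂ} {N : WithTop ℤ}
    (hf : ∀ i ∈ s, MeromorphicAt (f i) a) (h : ∀ i ∈ s, N ≤ meromorphicOrderAt (f i) a) :
    N ≤ meromorphicOrderAt (fun z => ∑ i ∈ s, f i z) a := by
  classical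
  induction s using Finset.induction_on with
  | empty =>
    have : meromorphicOrderAt (fun z : ℂ => ∑ i ∈ (∅ : Finset ι), f i z) a = ⊤ := by
      rw [meromorphicOrderAt_eq_top_iff]
      simp
    rw [this]
    exact le_top
  | insert i s hi ih =>
    have h1 := ih (fun j hj => hf j (Finset.mem_insert_of_mem hj))
      (fun j hj => h j (Finset.mem_insert_of_mem hj))
    have h2 := h i (Finset.mem_insert_self _ _)
    have e : (fun z => ∑ j ∈ insert i s, f j z) = f i + fun z => ∑ j ∈ s, f j z := by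
      ext z
      simp [Finset.sum_insert hi]
    rw [e]
    refine le_trans (le_min h2 h1) (meromorphicOrderAt_add (hf i (Finset.mem_insert_self _ _)) ?_)
    exact MeromorphicAt.fun_sum fun j hj => hf j (Finset.mem_insert_of_mem hj)

/-- the order of the derivative of a germ of nonnegative order -/
lemma le_ord_deriv {f : ℂ → ℂ} {a : ℂ} (hf : MeromorphicAt f a) {b : ℤ}
    (hb : 0 ≤ b) (h : (b : WithTop ℤ) ≤ meromorphicOrderAt f a) :
    ((max (b - 1) 0 : ℤ) : WithTop ℤ) ≤ meromorphicOrderAt (deriv f) a := by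
  by_cases htop : meromorphicOrderAt f a = ⊤
  · have : ∀ᶠ z in 𝓝[≠] a, deriv f z = 0 := by
      filter_upwards [ev_ev (meromorphicOrderAt_eq_top_iff.1 htop)] with z hz
      have : f =ᶠ[𝓝 z] fun _ => 0 := hz
      rw [this.deriv_eq, deriv_const]
    rw [meromorphicOrderAt_eq_top_iff.2 this]
    exact le_top
  · obtain ⟨n, hn⟩ := WithTop.ne_top_iff_exists.1 htop
    rw [← hn] at h
    have hbn : b ≤ n := by exact_mod_cast h
    by_cases h0 : n = 0
    · have hb0 : b = 0 := by omega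
      have h1 : (0 : WithTop ℤ) ≤ meromorphicOrderAt f a := by
        rw [← hn, h0]
        exact le_rfl
      obtain ⟨g, hg, hfg⟩ := hf.meromorphicOrderAt_nonneg_iff.1 h1
      have h2 : (0 : WithTop ℤ) ≤ meromorphicOrderAt (deriv f) a := by
        rw [meromorphicOrderAt_congr hfg.nhdsNE_deriv]
        exact hg.deriv.meromorphicOrderAt_nonneg
      simpa [hb0] using h2
    · have hn0 : (n : ℂ) ≠ 0 := by exact_mod_cast h0
      rw [meromorphicOrderAt_deriv_eq_sub_one hn0 hn.symm]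
      have : max (b - 1) 0 ≤ n - 1 := by
        rcases max_cases (b - 1) 0 with h | h <;> omega
      exact_mod_cast this

lemma le_ord_iteratedDeriv {f : ℂ → ℂ} {a : ℂ} (hf : MeromorphicAt f a) {b : ℤ}
    (hb : 0 ≤ b) (h : (b : WithTop ℤ) ≤ meromorphicOrderAt f a) (k : ℕ) :
    ((max (b - k) 0 : ℤ) : WithTop ℤ) ≤ meromorphicOrderAt (iteratedDeriv k f) a := by
  induction k with
  | zero =>
    rw [iteratedDeriv_zero]
    have : max (b - ((0 : ℕ) : ℤ)) 0 = b := by
      rw [max_eq_left] <;> simp [hb]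
    rw [this]
    exact h
  | succ k ih =>
    rw [iteratedDeriv_succ]
    have hm : MeromorphicAt (iteratedDeriv k f) a := by
      rw [iteratedDeriv_eq_iterate]
      exact hf.iterated_deriv
    refine le_trans ?_ (le_ord_deriv hm (le_max_right _ _) ih)
    have : max (b - ((k + 1 : ℕ) : ℤ)) 0 ≤ max (max (b - (k : ℤ)) 0 - 1) 0 := by
      push_cast
      rcases max_cases (b - (k : ℤ)) 0 with h | h <;>
      rcases max_cases (max (b - (k : ℤ)) 0 - 1) 0 with h' | h' <;>
      rcases max_cases (b - ((k : ℤ) + 1)) 0 with h'' | h'' <;> omega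
    exact_mod_cast this

/-- the order of the Wronskian of germs of nonnegative order -/
lemma le_ord_wr {p : ℕ} (F : Fin p → ℂ → ℂ) {a : ℂ} (hF : ∀ j, MeromorphicAt (F j) a)
    (b : Fin p → ℤ) (hb : ∀ j, 0 ≤ b j)
    (h : ∀ j, (b j : WithTop ℤ) ≤ meromorphicOrderAt (F j) a) :
    ((∑ j, max (b j - ((p : ℤ) - 1)) 0 : ℤ) : WithTop ℤ) ≤ meromorphicOrderAt (wr F) a := by
  have hW : wr F = fun z => ∑ σ : Equiv.Perm (Fin p), ((Equiv.Perm.sign σ : ℤ) : ℂ) *
      ∏ i, iteratedDeriv (σ i : ℕ) (F i) z := by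
    ext z
    unfold wr
    rw [Matrix.det_apply']
    rfl
  have hm : ∀ i k, MeromorphicAt (iteratedDeriv k (F i)) a := by
    intro i k
    rw [iteratedDeriv_eq_iterate]
    exact (hF i).iterated_deriv
  rw [hW]
  apply le_ord_sum
  · intro σ _
    apply MeromorphicAt.fun_mul (MeromorphicAt.const _ _)
    apply MeromorphicAt.fun_prod
    intro i _
    exact hm _ _
  · intro σ _
    have h1 : MeromorphicAt (fun z => ∏ i, iteratedDeriv (σ i : ℕ) (F i) z) a :=
      MeromorphicAt.fun_prod fun i _ => hm _ _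
    have h2 := meromorphicOrderAt_mul (MeromorphicAt.const ((Equiv.Perm.sign σ : ℤ) : ℂ) a) h1
    have e : (fun z => ((Equiv.Perm.sign σ : ℤ) : ℂ) * ∏ i, iteratedDeriv (σ i : ℕ) (F i) z) =
      (fun _ => ((Equiv.Perm.sign σ : ℤ) : ℂ)) *
        fun z => ∏ i, iteratedDeriv (σ i : ℕ) (F i) z := rfl
    rw [e, h2]
    have h3 : (0 : WithTop ℤ) ≤
        meromorphicOrderAt (fun _ : ℂ => ((Equiv.Perm.sign σ : ℤ) : ℂ)) a :=
      analyticAt_const.meromorphicOrderAt_nonneg
    have h4 : ((∑ j, max (b j - ((p : ℤ) - 1)) 0 : ℤ) : WithTop ℤ) ≤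
        meromorphicOrderAt (fun z => ∏ i, iteratedDeriv (σ i : ℕ) (F i) z) a := by
      rw [meromorphicOrderAt_fun_prod (fun i _ => hm _ _), WithTop.coe_sum]
      apply Finset.sum_le_sum
      intro i _
      refine le_trans ?_ (le_ord_iteratedDeriv (hF i) (hb i) (h i) (σ i : ℕ))
      have h5 : max (b i - ((p : ℤ) - 1)) 0 ≤ max (b i - ((σ i : ℕ) : ℤ)) 0 := by
        have := (σ i).2
        apply max_le_max _ le_rfl
        omega
      exact_mod_cast h5
    calc ((∑ j, max (b j - ((p : ℤ) - 1)) 0 : ℤ) : WithTop ℤ) ≤ 0 +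
        meromorphicOrderAt (fun z => ∏ i, iteratedDeriv (σ i : ℕ) (F i) z) a := by
          rw [zero_add]; exact h4
      _ ≤ _ := by gcongr

/-- replacing the omitted function in a Wronskian -/
lemma wr_swap {p : ℕ} (P : Fin (p + 1) → ℂ → ℂ) {z : ℂ} (hP : ∀ j, AnalyticAt ℂ (P j) z)
    (hs : ∀ᶠ w in 𝓝 z, ∑ j, P j w = 0) (i i' : Fin (p + 1)) :
    wr (fun j : Fin p => P (i.succAbove j)) z =
      (Int.negOnePow (i - i') : ℤˣ) • wr (fun j : Fin p => P (i'.succAbove j)) z := by
  have h := Matrix.submatrix_succAbove_det_eq_negOnePow_submatrix_succAbove_det'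
    (Matrix.of fun (l : Fin p) (j : Fin (p + 1)) => iteratedDeriv (l : ℕ) (P j) z) (by
      intro l
      simp only [Matrix.of_apply]
      rw [← iteratedDeriv_fun_sum (fun j _ => (hP j).contDiffAt)]
      have : (fun w => ∑ j, P j w) =ᶠ[𝓝 z] fun _ => 0 := hs
      rw [this.iteratedDeriv_eq, iteratedDeriv_const]
      simp) i i'
  exact h

lemma norm_wr_swap {p : ℕ} (P : Fin (p + 1) → ℂ → ℂ) {z : ℂ} (hP : ∀ j, AnalyticAt ℂ (P j) z)
    (hs : ∀ᶠ w in 𝓝 z, ∑ j, P j w = 0) (i i' : Fin (p + 1)) :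
    ‖wr (fun j : Fin p => P (i.succAbove j)) z‖ = ‖wr (fun j : Fin p => P (i'.succAbove j)) z‖ := by
  rw [wr_swap P hP hs i i']
  rcases Int.units_eq_one_or (Int.negOnePow (i - i')) with h | h <;> rw [h] <;> simp

theorem wr_order_ge {p m : ℕ} (hm : (p + 1) * (p - 1) < m) (G : Fin (p + 1) → ℂ → ℂ)
    (hG : ∀ j z, MeromorphicAt (G j) z) (a : ℂ) (n : Fin (p + 1) → ℤ)
    (hn : ∀ j, meromorphicOrderAt (G j) a = (n j : WithTop ℤ))
    (hsum : ∀ᶠ z in nhdsWithin a {a}ᶜ, ∑ j, G j z ^ m = 0) (i : Fin (p + 1))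
    (hi : ∀ j, n i ≤ n j) :
    (((((m : ℤ) - p + 1) * ∑ j, n j - ((m : ℤ) - (p + 1) * (p - 1)) * n i : ℤ)) : WithTop ℤ) ≤
      meromorphicOrderAt (wr fun (j : Fin p) z => G j.castSucc z ^ m) a := by
  -- pass to the Wronskian omitting the index `i`
  have hGm : ∀ j, MeromorphicAt (fun z => G j z ^ m) a := fun j => (hG j a).fun_pow m
  have hna : ∀ᶠ z in 𝓝[≠] a, ∀ j, AnalyticAt ℂ (fun z => G j z ^ m) z :=
    eventually_all.2 fun j => (hGm j).eventually_analyticAt
  have hsw : meromorphicOrderAt (wr fun (j : Fin p) z => G j.castSucc z ^ m) a =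
      meromorphicOrderAt (wr fun (j : Fin p) z => G (i.succAbove j) z ^ m) a := by
    have e : (wr fun (j : Fin p) z => G j.castSucc z ^ m) =ᶠ[𝓝[≠] a]
        (fun _ => (((Int.negOnePow ((Fin.last p : Fin (p+1)) - i : ℤ) : ℤˣ) : ℤ) : ℂ)) *
          wr fun (j : Fin p) z => G (i.succAbove j) z ^ m := by
      filter_upwards [hna, ev_ev hsum] with z hz hz2
      have := wr_swap (fun j z => G j z ^ m) hz hz2 (Fin.last p) i
      simp only [Fin.succAbove_last] at this
      rw [this]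
      simp [Units.smul_def]
    rw [meromorphicOrderAt_congr e, meromorphicOrderAt_mul (MeromorphicAt.const _ _)
      (wr_mero_at _ fun j => hGm _)]
    have h1 : meromorphicOrderAt
        (fun _ : ℂ => (((Int.negOnePow ((Fin.last p : Fin (p+1)) - i : ℤ) : ℤˣ) : ℤ) : ℂ)) a = 0 := by
      classical
      rw [meromorphicOrderAt_const, if_neg]
      rcases Int.units_eq_one_or (Int.negOnePow ((Fin.last p : Fin (p+1)) - i : ℤ)) with h | h <;>
        rw [h] <;> simp
    rw [h1, zero_add]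
  rw [hsw]
  -- scale by a power of `z - a`
  set φ : ℂ → ℂ := fun z => (z - a) ^ ((m : ℤ) * n i) with hφ
  set f : Fin p → ℂ → ℂ := fun j z => G (i.succAbove j) z ^ m * (z - a) ^ (-((m : ℤ) * n i)) with hf
  have hφm : MeromorphicAt φ a := by
    apply MeromorphicAt.fun_zpow
    exact (MeromorphicAt.id a).fun_sub (MeromorphicAt.const a a)
  have hφm' : MeromorphicAt (fun z => (z - a) ^ (-((m : ℤ) * n i))) a := by
    apply MeromorphicAt.fun_zpow
    exact (MeromorphicAt.id a).fun_sub (MeromorphicAt.const a a)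
  have hfm : ∀ j, MeromorphicAt (f j) a := fun j => (hGm _).fun_mul hφm'
  have hscale : (wr fun (j : Fin p) z => G (i.succAbove j) z ^ m) =ᶠ[𝓝[≠] a]
      (fun z => φ z ^ p) * wr f := by
    have h1 : ∀ᶠ z in 𝓝[≠] a, ∀ j, AnalyticAt ℂ (f j) z :=
      eventually_all.2 fun j => (hfm j).eventually_analyticAt
    have h2 : ∀ᶠ z in 𝓝[≠] a, z ≠ a := self_mem_nhdsWithin
    filter_upwards [h1, hφm.eventually_analyticAt, ev_ev h2] with z hz hz2 hz3
    simp only [Pi.mul_apply]
    rw [← wr_mul_at φ f hz2 hz]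
    apply wr_congr_at
    intro j
    filter_upwards [hz3] with w hw
    have hw' : w - a ≠ 0 := sub_ne_zero.2 hw
    simp only [hf, hφ, Pi.mul_apply]
    rw [mul_assoc, ← zpow_add₀ hw']
    simp
  rw [meromorphicOrderAt_congr hscale, meromorphicOrderAt_mul (hφm.fun_pow p) (wr_mero_at _ hfm)]
  have hφo : meromorphicOrderAt φ a = (((m : ℤ) * n i : ℤ) : WithTop ℤ) := by
    have := meromorphicOrderAt_zpow_id_sub_const (𝕜 := ℂ) (x := a) (n := (m : ℤ) * n i)
    exact this
  have hφp : meromorphicOrderAt (fun z => φ z ^ p) a =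
      (((p : ℤ) * ((m : ℤ) * n i) : ℤ) : WithTop ℤ) := by
    have : (fun z => φ z ^ p) = φ ^ p := rfl
    rw [this, meromorphicOrderAt_pow hφm, hφo]
    push_cast
    rfl
  have hφo' : meromorphicOrderAt (fun z => (z - a) ^ (-((m : ℤ) * n i))) a =
      ((-((m : ℤ) * n i) : ℤ) : WithTop ℤ) := by
    have := meromorphicOrderAt_zpow_id_sub_const (𝕜 := ℂ) (x := a) (n := -((m : ℤ) * n i))
    exact this
  have hfo : ∀ j, (((m : ℤ) * (n (i.succAbove j) - n i) : ℤ) : WithTop ℤ) ≤
      meromorphicOrderAt (f j) a := by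
    intro j
    have e : f j = (G (i.succAbove j) ^ m) * fun z => (z - a) ^ (-((m : ℤ) * n i)) := rfl
    rw [e, meromorphicOrderAt_mul ((hG _ a).pow m) hφm', meromorphicOrderAt_pow (hG _ a), hn, hφo']
    have : (m : ℤ) * (n (i.succAbove j) - n i) = (m : ℤ) * n (i.succAbove j) + -((m : ℤ) * n i) := by
      ring
    rw [this]
    push_cast
    exact le_rfl
  have hfin := le_ord_wr f hfm (fun j => (m : ℤ) * (n (i.succAbove j) - n i))
    (fun j => mul_nonneg (by positivity) (sub_nonneg.2 (hi _))) hfo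
  rw [hφp]
  refine le_trans ?_ (add_le_add le_rfl hfin)
  have hkey : ((m : ℤ) - p + 1) * ∑ j, n j - ((m : ℤ) - (p + 1) * (p - 1)) * n i ≤
      (p : ℤ) * ((m : ℤ) * n i) +
        ∑ j : Fin p, max ((m : ℤ) * (n (i.succAbove j) - n i) - ((p : ℤ) - 1)) 0 := by
    have h1 : ∑ j, n j = n i + ∑ j : Fin p, n (i.succAbove j) := Fin.sum_univ_succAbove n i
    have h2 : ∑ j : Fin p, ((m : ℤ) - p + 1) * (n (i.succAbove j) - n i) ≤
        ∑ j : Fin p, max ((m : ℤ) * (n (i.succAbove j) - n i) - ((p : ℤ) - 1)) 0 := by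
      apply Finset.sum_le_sum
      intro j _
      have hp : (1 : ℤ) ≤ p := by
        have := j.2
        omega
      have hk : 0 ≤ n (i.succAbove j) - n i := sub_nonneg.2 (hi _)
      rcases hk.eq_or_lt with h0 | h0
      · rw [← h0]; simp
      · refine le_trans ?_ (le_max_left _ _)
        nlinarith
    rw [← Finset.mul_sum, Finset.sum_sub_distrib] at h2
    simp only [Finset.sum_const, Finset.card_univ, Fintype.card_fin, nsmul_eq_mul] at h2
    refine le_trans (le_of_eq ?_) (add_le_add le_rfl h2)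
    rw [h1]
    ring
  exact_mod_cast hkey

end LangFC
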